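import Mathlib

/-!
# Forms with vanishing directional derivatives (for project FI of helper732)
-/

set_option autoImplicit false

open Polynomial

namespace Pool.Agent.TH200.FI

section forms
open MvPolynomial

/-- the number of monomials of degree `m` (copied from TH554/J3513) -/
theorem finrank_forms (N m : ℕ) : Module.finrank ℂ (homogeneousSubmodule (Fin (N + 1)) ℂ m) =
    (m + N).choose N := by
  classical
  have e0 : ({d : Fin (N + 1) →₀ ℕ | d.degree = m} : Set (Fin (N + 1) →₀ ℕ)) =
      ((Finset.univ : Finset (Fin (N + 1))).finsuppAntidiag m : Set (Fin (N + 1) →₀ ℕ)) := by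
    ext d
    simp [Finset.mem_finsuppAntidiag, Finsupp.degree_eq_sum]
  rw [homogeneousSubmodule_eq_finsupp_supported, e0,
    LinearEquiv.finrank_eq (AddMonoidAlgebra.supportedEquivFinsupp (S := ℂ) (R := ℂ)
      ((Finset.univ : Finset (Fin (N + 1))).finsuppAntidiag m : Set (Fin (N + 1) →₀ ℕ))),
    Module.finrank_finsupp_self]
  simp only [SetLike.coe_sort_coe, Fintype.card_coe]
  rw [Finset.card_finsuppAntidiag_nat_eq_choose]
  rw [Finset.card_univ, Fintype.card_fin]
  rw [show N + 1 + m - 1 = N + m by omega, add_comm m N]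
  exact Nat.choose_symm_add.symm

theorem finite_forms (N m : ℕ) :
    Module.Finite ℂ (homogeneousSubmodule (Fin (N + 1)) ℂ m) := by
  apply Module.finite_of_finrank_pos
  rw [finrank_forms]
  exact Nat.choose_pos (Nat.le_add_left _ _)

/-- W1 -/
theorem finrank_forms8 (d : ℕ) : Module.finrank ℂ (homogeneousSubmodule (Fin 8) ℂ d) =
    (d + 7).choose 7 := finrank_forms 7 d

end forms

section div

variable {R : Type} [CommRing R]

/-- the coefficient of `X ^ j` is divisible by `τ ^ (k - j)` -/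
def Dv (τ : R) (k : ℕ) (P : R[X]) : Prop := ∀ j, τ ^ (k - j) ∣ P.coeff j

lemma Dv.mul {τ : R} {k l : ℕ} {P Q : R[X]} (hP : Dv τ k P) (hQ : Dv τ l Q) :
    Dv τ (k + l) (P * Q) := by
  intro j
  rw [coeff_mul]
  apply Finset.dvd_sum
  rintro ⟨a, b⟩ hab
  rw [Finset.HasAntidiagonal.mem_antidiagonal] at hab
  have h1 : τ ^ (k - a) * τ ^ (l - b) ∣ P.coeff a * Q.coeff b := mul_dvd_mul (hP a) (hQ b)
  rw [← pow_add] at h1
  refine (pow_dvd_pow τ ?_).trans h1
  simp only at hab
  omega

lemma Dv.one (τ : R) : Dv τ 0 1 := by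
  intro j
  rw [Nat.zero_sub, pow_zero]
  exact one_dvd _

lemma Dv.pow {τ : R} {k : ℕ} {P : R[X]} (hP : Dv τ k P) (n : ℕ) : Dv τ (n * k) (P ^ n) := by
  induction n with
  | zero =>
    rw [zero_mul, pow_zero]
    exact Dv.one τ
  | succ n ih =>
    rw [pow_succ, add_mul, one_mul]
    exact ih.mul hP

lemma Dv.prod {ι : Type} {τ : R} {P : ι → R[X]} (hP : ∀ i, Dv τ 1 (P i)) (s : Finset ι)
    (m : ι → ℕ) : Dv τ (∑ i ∈ s, m i) (∏ i ∈ s, P i ^ m i) := by
  classical
  induction s using Finset.induction_on with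
  | empty =>
    rw [Finset.sum_empty, Finset.prod_empty]
    exact Dv.one τ
  | insert i s hi ih =>
    rw [Finset.sum_insert hi, Finset.prod_insert hi]
    have h1 := (hP i).pow (m i)
    rw [mul_one] at h1
    exact h1.mul ih

lemma Dv.lin (τ p v : R) : Dv τ 1 (X * C p + C (τ * v)) := by
  intro j
  rcases Nat.eq_zero_or_pos j with rfl | hj
  · rw [Nat.sub_zero, pow_one, coeff_add, mul_coeff_zero, coeff_X_zero, zero_mul, zero_add,
      coeff_C_zero]
    exact dvd_mul_right _ _
  · have h1 : 1 - j = 0 := by omega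
    rw [h1, pow_zero]
    exact one_dvd _

end div

section main

variable {R : Type} [CommRing R] [IsDomain R] [Algebra ℂ R]

/-- the substitution -/
noncomputable def sub {N : ℕ} (p : Fin N → ℂ) (τ : R) (v : Fin N → R) :
    MvPolynomial (Fin N) ℂ →ₐ[ℂ] R[X] :=
  MvPolynomial.aeval (fun i => X * C (algebraMap ℂ R (p i)) + C (τ * v i))

/-- the derivation -/
noncomputable def D {N : ℕ} (p : Fin N → ℂ) :
    Derivation ℂ (MvPolynomial (Fin N) ℂ) (MvPolynomial (Fin N) ℂ) :=
  MvPolynomial.mkDerivation ℂ (fun i => MvPolynomial.C (p i))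

lemma der {N : ℕ} (p : Fin N → ℂ) (τ : R) (v : Fin N → R) (F : MvPolynomial (Fin N) ℂ) :
    derivative (sub p τ v F) = sub p τ v (D p F) := by
  induction F using MvPolynomial.induction_on with
  | C a =>
    have h1 : sub p τ v (MvPolynomial.C a) = C (algebraMap ℂ R a) := by
      unfold sub
      rw [MvPolynomial.aeval_C]
      rfl
    have h2 : D p (MvPolynomial.C a) = 0 := (D p).map_algebraMap a
    rw [h1, h2, derivative_C, map_zero]
  | add F G hF hG => rw [map_add, map_add, map_add, map_add, hF, hG]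
  | mul_X F i hF =>
    have h1 : sub p τ v (MvPolynomial.X i) = X * C (algebraMap ℂ R (p i)) + C (τ * v i) := by
      unfold sub
      rw [MvPolynomial.aeval_X]
    have h2 : D p (MvPolynomial.X i) = MvPolynomial.C (p i) := MvPolynomial.mkDerivation_X _ _ _
    have h3 : sub p τ v (MvPolynomial.C (p i)) = C (algebraMap ℂ R (p i)) := by
      unfold sub
      rw [MvPolynomial.aeval_C]
      rfl
    rw [map_mul, derivative_mul, hF, Derivation.leibniz, h2, smul_eq_mul, smul_eq_mul, map_add,
      map_mul, map_mul, h1, h3]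
    simp only [derivative_add, derivative_mul, derivative_X, derivative_C, mul_zero, add_zero,
      one_mul]
    ring

lemma der_iter {N : ℕ} (p : Fin N → ℂ) (τ : R) (v : Fin N → R) (F : MvPolynomial (Fin N) ℂ)
    (a : ℕ) : derivative^[a] (sub p τ v F) = sub p τ v ((D p)^[a] F) := by
  induction a generalizing F with
  | zero => rfl
  | succ a ih => rw [Function.iterate_succ_apply, der, ih, Function.iterate_succ_apply]

lemma coeff_hi {P : R[X]} {a : ℕ} (h : derivative^[a] P = 0) (j : ℕ) (hj : a ≤ j) :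
    P.coeff j = 0 := by
  have h1 := coeff_iterate_derivative (p := P) (k := a) (m := j - a)
  rw [h, Polynomial.coeff_zero, Nat.sub_add_cancel hj] at h1
  have hc : CharZero R := charZero_of_injective_algebraMap (algebraMap ℂ R).injective
  rw [nsmul_eq_mul] at h1
  rcases mul_eq_zero.mp h1.symm with h2 | h2
  · exfalso
    have h3 : j.descFactorial a = 0 := by exact_mod_cast h2
    rw [Nat.descFactorial_eq_zero_iff_lt] at h3
    omega
  · exact h2

lemma sub_Dv {N : ℕ} (p : Fin N → ℂ) (τ : R) (v : Fin N → R) {d : ℕ}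
    {F : MvPolynomial (Fin N) ℂ} (hF : F.IsHomogeneous d) : Dv τ d (sub p τ v F) := by
  have h1 : sub p τ v F = ∑ m ∈ F.support, algebraMap ℂ R[X] (F.coeff m) *
      ∏ i, (X * C (algebraMap ℂ R (p i)) + C (τ * v i)) ^ m i := by
    unfold sub
    rw [MvPolynomial.aeval_def, MvPolynomial.eval₂_eq']
  intro j
  rw [h1, finsetSum_coeff]
  apply Finset.dvd_sum
  intro m hm
  have h2 : ∑ i, m i = d := by
    have h3 : m.degree = d := by
      rw [Finsupp.degree_eq_weight_one]
      exact hF (MvPolynomial.mem_support_iff.mp hm)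
    rw [← h3, Finsupp.degree_eq_sum]
  have h4 : Dv τ d (∏ i, (X * C (algebraMap ℂ R (p i)) + C (τ * v i)) ^ m i) := by
    have := Dv.prod (fun i => Dv.lin τ (algebraMap ℂ R (p i)) (v i)) Finset.univ (fun i => m i)
    rwa [h2] at this
  have h5 : algebraMap ℂ R[X] (F.coeff m) = C (algebraMap ℂ R (F.coeff m)) := rfl
  rw [h5, coeff_C_mul]
  exact Dvd.dvd.mul_left (h4 j) _

theorem lemA' {N : ℕ} (p : Fin N → ℂ) (d a : ℕ) (F : MvPolynomial (Fin N) ℂ)
    (hF : F.IsHomogeneous d) (h : (D p)^[a] F = 0) (v : Fin N → R) (τ : R) :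
    τ ^ (d + 1 - a) ∣ MvPolynomial.aeval (fun i => algebraMap ℂ R (p i) + τ * v i) F := by
  have h1 : MvPolynomial.aeval (fun i => algebraMap ℂ R (p i) + τ * v i) F =
      (sub p τ v F).eval 1 := by
    have h2 := MvPolynomial.comp_aeval_apply
      (f := fun i => X * C (algebraMap ℂ R (p i)) + C (τ * v i))
      (φ := (Polynomial.aeval (1 : R) : R[X] →ₐ[R] R).restrictScalars ℂ) F
    have h3 : (sub p τ v F).eval 1 =
        ((Polynomial.aeval (1 : R) : R[X] →ₐ[R] R).restrictScalars ℂ) (sub p τ v F) := by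
      rw [AlgHom.restrictScalars_apply, Polynomial.coe_aeval_eq_eval]
    rw [h3]
    unfold sub
    rw [h2]
    congr 2
    funext i
    rw [AlgHom.restrictScalars_apply, Polynomial.coe_aeval_eq_eval]
    simp
  rw [h1, eval_eq_sum_range]
  apply Finset.dvd_sum
  intro j _
  rw [one_pow, mul_one]
  rcases Nat.lt_or_ge j a with hj | hj
  · exact (pow_dvd_pow τ (by omega)).trans (sub_Dv p τ v hF j)
  · have h4 : derivative^[a] (sub p τ v F) = 0 := by
      rw [der_iter, h, map_zero]
    rw [coeff_hi h4 j hj]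
    exact dvd_zero _

end main

/-- W2 -/
theorem lemA {N : ℕ} (p : Fin N → ℂ) (d a : ℕ) (F : MvPolynomial (Fin N) ℂ)
    (hF : F.IsHomogeneous d)
    (h : (MvPolynomial.mkDerivation ℂ (fun i => MvPolynomial.C (p i)) :
      Derivation ℂ (MvPolynomial (Fin N) ℂ) (MvPolynomial (Fin N) ℂ))^[a] F = 0)
    (v : Fin N → Polynomial ℂ) (τ : Polynomial ℂ) :
    τ ^ (d + 1 - a) ∣ MvPolynomial.aeval (fun i => Polynomial.C (p i) + τ * v i) F :=
  lemA' (R := Polynomial ℂ) p d a F hF h v τ

end Pool.Agent.TH200.FI
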